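import Pool.Agent.helper88.SurjMember

/-!
# The full-space surjectivity problem is complete for `∀∃ℝ`

Answer to Q1 of MP_e38cae_lc: yes.

Hardness. Given a sentence `∀ x ∈ ℝ^k, ∃ y ∈ ℝ^l, φ(x, y)`, give every node of the syntax tree of `φ`
its own real variable (the real value of a term, the truth value `0` or `1` of a formula), and
write polynomial equations `p = 0` of degree at most `4` that force the right values (one auxiliary
variable per atomic formula; `a < b` is `(b - a) w² = 1`, `a ≤ b` is `b - a = w²`). So the
sentence is true if and only if for every `x` there is a point `v` of the big space with first
coordinates `x` and all `p(v) = 0`. The polynomial map has the coordinates `x_1, ..., x_k`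
themselves and, for every equation `p = 0`, with two new variables `s` and `t`, the two coordinates

  `A = s t + p` and `B = (s t + p) s² - t`.

`A = B = 0` forces `t = 0` and then `p = 0`, so surjectivity implies the sentence. Conversely, if
`p = 0` then `(A, B)` takes every value `(α, β)`: for `α = 0` take `s = 0`, `t = -β`, and for
`α ≠ 0` take a real root `s` of the cubic `α s³ - β s - α` and `t = α s² - β`.

The file `SurjDefs` has the definitions, `SurjMachine` and `SurjFinal` the correctness of the
reduction (written as a stack machine on the syntax tree), `SurjProg` and `SurjHard` its polynomial
time bound for Mathlib's `TM2` machines, and `SurjMember` the membership in `∀∃ℝ`.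
-/

namespace Pool.Agent.Results.MP_e38cae_lc.FullSpaceComplete

open Pool.Agent.helper88.Surj

/-- The full-space version of the surjectivity problem (given an integer polynomial map
`ℝ^n → ℝ^m`, is it surjective?) is `∀∃ℝ`-complete. -/
theorem result : AERComplete Surjectivity := complete

end Pool.Agent.Results.MP_e38cae_lc.FullSpaceComplete
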